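import Pool.Agent.Lib.MP_887a05_al.OE.Cub2
import Pool.Agent.Lib.MP_887a05_al.OE.Spr
import Pool.Agent.Lib.MP_887a05_al.OE.Pow

namespace Pool.Agent.Results.MP_887a05_al.CubicTowerAll

open Module
open Pool.Agent.Shared.WittDefs (v)
open Pool.Agent.Shared.WittRing (v_le_iff)
open Pool.Agent.Lib.MP_887a05_al.L3

universe u

theorem result (F K₁ K₂ L K : Type u) [Field F] [Field K₁] [Field K₂] [Field L] [Field K]
    [Algebra F K₁] [Algebra K₁ K₂] [Algebra K₂ L] [IsGalois K₂ L] [Algebra K L]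
    (hchar : (2 : F) ≠ 0) (h₁ : finrank F K₁ = 3) (h₂ : finrank K₁ K₂ = 3) (n : ℕ)
    (h₃ : finrank K₂ L = 2 ^ n) (h₄ : Odd (finrank K L)) : v K ≤ v F + 1 := by
  have two : ∀ (A B : Type u) [Field A] [Field B] [Algebra A B], (2 : A) ≠ 0 ↔ (2 : B) ≠ 0 := by
    intro A B _ _ _
    rw [← map_ne_zero (algebraMap A B), map_ofNat]
  have c2 : (2 : K₂) ≠ 0 := (two K₁ K₂).1 ((two F K₁).1 hchar)
  have h2 : (2 : K) ≠ 0 := (two K L).2 ((two K₂ L).1 c2)
  have : Module.Finite K₂ L := Module.finite_of_finrank_pos (by rw [h₃]; positivity)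
  induction hv : v F using ENat.recTopCoe with
  | top => simp
  | coe m =>
    have hF := (pow_eq_bot_iff hchar _).1 ((v_le_iff m).1 hv.le)
    have := (pow_eq_bot_iff h2 _).2
      (odd_desc K L h₄ (two_power n K₂ L h₃ c2 (cub_tower hchar hF h₁ h₂)))
    exact_mod_cast (v_le_iff (m + 1)).2 this

end Pool.Agent.Results.MP_887a05_al.CubicTowerAll
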