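import Pool.Agent.Lib.MP_887a05_al.KRSum
import Pool.Agent.Lib.MP_887a05_al.FSWitt

namespace Pool.Agent.Results.MP_887a05_al.FiniteQuotients

open Pool.Agent.Shared.WittDefs (v)
open Pool.Agent.Shared.WittRing
open Pool.Agent.Lib.MP_887a05_al.FS

universe u

/-- `x` is zero or an element of the subgroup `H`. -/
def Coef {K : Type u} [Field K] (H : Subgroup Kˣ) (x : K) : Prop := x = 0 ∨ ∃ u ∈ H, x = u

/-- `b = x - a y` with `x`, `y` in `H` or zero. -/
def Rep {K : Type u} [Field K] (H : Subgroup Kˣ) (a b : Kˣ) : Prop :=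
  ∃ x y : K, Coef H x ∧ Coef H y ∧ (b : K) = x - a * y

/-- `H` contains the squares, and the value sets of the binary forms modulo `H` are closed under
multiplication. -/
def Quaternionic {K : Type u} [Field K] (H : Subgroup Kˣ) : Prop :=
  Subgroup.square Kˣ ≤ H ∧ ∀ a b c : Kˣ, Rep H a b → Rep H a c → Rep H a (b * c)

/-- The Pfister form with slots `a` is isotropic modulo `H`. For `H` the group of squares this is
isotropy in the usual sense. -/
def Iso {K : Type u} [Field K] (H : Subgroup Kˣ) {m : ℕ} (a : Fin m → Kˣ) : Prop :=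
  ∃ h : Finset (Fin m) → K, (∀ S, Coef H (h S)) ∧ (∃ S, h S ≠ 0) ∧
    ∑ S, h S * ∏ i ∈ S, -(a i : K) = 0

theorem result (F K : Type u) [Field F] [Field K] [Algebra F K] [FiniteDimensional F K]
    (hchar : (2 : F) ≠ 0)
    (hK : ∀ m : ℕ, 2 ≤ m → ∀ a : Fin m → Kˣ, ¬ Iso (Subgroup.square Kˣ) a →
      ∃ H : Subgroup Kˣ, H.FiniteIndex ∧ Quaternionic H ∧ ¬ Iso H a) :
    v K ≤ v F + 1 := by
  have h2 : (2 : K) ≠ 0 := by simpa [map_ofNat] using (map_ne_zero (algebraMap F K)).2 hchar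
  have z : ∀ H : Subgroup Kˣ, (0 : K) ∉ {x : K | ∃ u ∈ H, x = u} :=
    fun H ⟨u, _, e⟩ => u.ne_zero e.symm
  have sq : {x : K | ∃ u ∈ Subgroup.square Kˣ, x = u} = sqs K := Set.ext fun x =>
    ⟨fun ⟨_, ⟨s, rfl⟩, e⟩ => ⟨s, s.ne_zero, by rw [e, pow_two, Units.val_mul]⟩,
      fun ⟨s, s0, e⟩ => ⟨Units.mk0 s s0 * Units.mk0 s s0, ⟨_, rfl⟩, by rw [e, pow_two]; rfl⟩⟩
  induction hv : v F using ENat.recTopCoe with
  | top => simp
  | coe n =>
    have hF := (pow_eq_bot_iff_iso hchar _).1 ((v_le_iff n).1 hv.le)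
    have := (pow_eq_bot_iff_iso h2 (n + 1 + 1)).2 fun l hl len => by_contra fun h0 => by
      let a : Fin (n + 2) → Kˣ := fun i =>
        Units.mk0 (l[i]'(i.2.trans_le len)) (hl _ (List.getElem_mem _))
      have e : List.ofFn (fun i => (a i : K)) = l.take (n + 2) :=
        List.ext_getElem (by simpa using len) fun i _ _ => by
          rw [List.getElem_ofFn, List.getElem_take]; rfl
      obtain ⟨H, hH, ⟨q1, q2⟩, hI⟩ := hK (n + 2) (by omega) a fun k => h0 (by
        have := (kr_sum_fin (z _) fun i => (a i : K)).2 k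
        rw [sq, e] at this
        rw [← List.take_append_drop (n + 2) l, N_perm List.perm_append_comm]
        exact N_sub_append _ _ this)
      obtain ⟨m, hm⟩ := kr_cov hH
      have g : Gp {x : K | ∃ u ∈ H, x = u} :=
        ⟨z H, fun ⟨s, hs, e⟩ ⟨t, ht, e'⟩ => ⟨s * t, H.mul_mem hs ht, by rw [e, e', Units.val_mul]⟩,
          fun {s} s0 => ⟨Units.mk0 s s0 * Units.mk0 s s0, q1 ⟨_, rfl⟩, by rw [pow_two]; rfl⟩⟩
      have g' : Good {x : K | ∃ u ∈ H, x = u} := ⟨g, h2, by
        rintro a b c a0 ⟨b0, x, y, hx, hy, -, e1⟩ ⟨c0, x', y', hx', hy', -, e2⟩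
        obtain ⟨p, q, hp, hq, e3⟩ := q2 (Units.mk0 a a0) (Units.mk0 b b0) (Units.mk0 c c0)
          ⟨x, y, hx.symm, hy.symm, e1⟩ ⟨x', y', hx'.symm, hy'.symm, e2⟩
        refine ⟨mul_ne_zero b0 c0, p, q, hp.symm, hq.symm, ?_, e3⟩
        rcases hp with rfl | hp
        · rcases hq with rfl | hq
          · exact absurd e3 (by simp [b0, c0])
          · exact .inr hq
        · exact .inl hp⟩
      obtain ⟨l', b1, b2, b3⟩ := kr_main m K F _ g' hm trivial (List.ofFn fun i => (a i : K))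
        (by simp [List.mem_ofFn]) fun k => hI ((kr_sum_fin (z H) _).1 k)
      exact b3 (hF l' b1 (by rw [List.length_ofFn] at b2; omega))
    exact_mod_cast (v_le_iff (n + 1)).2 this

end Pool.Agent.Results.MP_887a05_al.FiniteQuotients
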