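import Pool.Agent.Lib.MP_887a05_al.L3Main

namespace Pool.Agent.Results.MP_887a05_al.LogThree

open Pool.Agent.Shared.WittDefs (v)
open Pool.Agent.Shared.WittRing (v_le_iff)
open Pool.Agent.Lib.MP_887a05_al.L3

universe u

theorem result (F K : Type u) [Field F] [Field K] [Algebra F K] [FiniteDimensional F K]
    (hchar : (2 : F) ≠ 0) : v K ≤ v F + (Nat.log 3 (Module.finrank F K) : ℕ) := by
  have h2 : (2 : K) ≠ 0 := by simpa [map_ofNat] using (map_ne_zero (algebraMap F K)).2 hchar
  induction hv : v F using ENat.recTopCoe with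
  | top => simp
  | coe n =>
    have hF := (pow_eq_bot_iff hchar _).1 ((v_le_iff n).1 hv.le)
    have := (pow_eq_bot_iff h2 _).2 (finite_ext hchar (K := K) fun q hq =>
      tower hchar hF (Nat.log 3 (Module.finrank F K) + 1) q
        (hq.trans_lt (Nat.lt_pow_succ_log_self (by norm_num) _)))
    exact_mod_cast (v_le_iff (n + Nat.log 3 (Module.finrank F K))).2 this

end Pool.Agent.Results.MP_887a05_al.LogThree
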