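import Pool.Agent.Lib.MP_887a05_al.OE.Rel
import Pool.Agent.Lib.MP_887a05_al.OE.Down

namespace Pool.Agent.Results.MP_887a05_al.NormRelationAll

open Pool.Agent.Shared.WittDefs (v)
open Pool.Agent.Shared.WittRing (v_le_iff)
open Pool.Agent.Lib.MP_887a05_al.L3

universe u

theorem result (F K M : Type u) [Field F] [Field K] [Field M] [Algebra F K] [Algebra K M]
    [Algebra F M] [IsScalarTower F K M] [FiniteDimensional F M] [IsGalois F M]
    (hchar : (2 : F) ≠ 0) (n d : ℕ) (hn : 1 ≤ n) (hd : Odd d)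
    (h : (d : MonoidAlgebra ℤ (M ≃ₐ[F] M)) ∈ TwoSidedIdeal.span
      {x | ∃ V H : Subgroup (M ≃ₐ[F] M), V.index ≤ n ∧
        Relation.ReflTransGen (fun A B : Subgroup (M ≃ₐ[F] M) => B ≤ A ∧ B.relIndex A = 2) V H ∧
        x = ∑ᶠ σ ∈ H, MonoidAlgebra.of ℤ (M ≃ₐ[F] M) σ}) :
    v K ≤ v F + (Nat.log 3 n : ℕ) := by
  have h2 : (2 : K) ≠ 0 := by simpa [map_ofNat] using (map_ne_zero (algebraMap F K)).2 hchar
  induction hv : v F using ENat.recTopCoe with
  | top => simp
  | coe k =>
    have hF := (pow_eq_bot_iff hchar _).1 ((v_le_iff k).1 hv.le)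
    have lg : ∀ (L : Type u) [Field L] [Algebra F L] [FiniteDimensional F L] {n : ℕ},
        Module.finrank F L ≤ n → J L ^ (k + Nat.log 3 n + 1) = ⊥ := fun L _ _ _ n hL =>
      finite_ext hchar (K := L) fun q hq => tower hchar hF (Nat.log 3 n + 1) q
        ((hq.trans hL).trans_lt (Nat.lt_pow_succ_log_self (by norm_num) _))
    have hM := nrm (m := k + Nat.log 3 n) hchar hd (fun E _ _ _ _ hE => norm_all E M hE)
      (fun L _ _ _ hL => lg L hL) hn h
    have : FiniteDimensional F K := .left F K M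
    have : FiniteDimensional K M := .right F K M
    have : IsGalois K M := .tower_top_of_isGalois F K M
    have := (pow_eq_bot_iff h2 _).2 (going_down K M h2 (lg K le_rfl) hM)
    exact_mod_cast (v_le_iff (k + Nat.log 3 n)).2 this

end Pool.Agent.Results.MP_887a05_al.NormRelationAll
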